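import Pool.Agent.H.MP_c47ae4_an.Defs

set_option autoImplicit false
open MeasureTheory ProbabilityTheory Finset Filter
open scoped ENNReal

namespace Pool.Agent.H.MP_c47ae4_an

variable {m : ℕ → ℕ} [∀ k, NeZero (m k)]

omit [∀ k, NeZero (m k)] in
lemma M_succ (n : ℕ) : M m (n + 1) = M m n * m n := prod_range_succ _ _

lemma M_pos (n : ℕ) : 0 < M m n := prod_pos fun _ _ => NeZero.pos _

lemma M_mono : Monotone (M m) := monotone_nat_of_le_succ fun n => by
  rw [M_succ]; exact Nat.le_mul_of_pos_right _ (NeZero.pos _)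

lemma M_two (h2 : ∀ k, 2 ≤ m k) (l b : ℕ) : 2 ^ b * M m l ≤ M m (l + b) := by
  induction b with
  | zero => simp
  | succ b ih => rw [← add_assoc, M_succ, pow_succ]; nlinarith [h2 (l + b), M_pos (m := m) (l + b)]

lemma lt_M (h2 : ∀ k, 2 ≤ m k) (n : ℕ) : n < M m n := by
  have := M_two h2 0 n
  simp only [M, range_zero, prod_empty, mul_one, zero_add] at this
  exact Nat.lt_two_pow_self.trans_le this

lemma r_eq (k : ℕ) (x : G m) : r m k x = ZMod.stdAddChar (x k) := by
  rw [ZMod.stdAddChar_apply, ZMod.toCircle_apply, r]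

lemma psi_eq {i L : ℕ} (h : i < M m L) (x : G m) :
    psi m i x = ∏ k ∈ range L, r m k x ^ (i / M m k % m k) :=
  finprod_eq_prod_of_mulSupport_subset _ fun k hk => by
    by_contra hh
    simp only [coe_range, Set.mem_Iio, not_lt] at hh
    simp [Nat.div_eq_of_lt (h.trans_le (M_mono hh))] at hk

lemma psi_split {i L d : ℕ} (h : i < M m L) (hd : d < m L) (x : G m) :
    psi m (M m L * d + i) x = psi m i x * r m L x ^ d := by
  rw [psi_eq (L := L + 1) (by rw [M_succ]; nlinarith), psi_eq h, prod_range_succ,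
    Nat.mul_add_div (M_pos _), Nat.div_eq_of_lt h, add_zero, Nat.mod_eq_of_lt hd]
  congr 1
  refine prod_congr rfl fun k hk => ?_
  obtain ⟨c, hc⟩ : M m (k + 1) ∣ M m L :=
    prod_dvd_prod_of_subset _ _ _ (range_mono (mem_range.1 hk))
  rw [hc, M_succ, mul_assoc, mul_assoc, Nat.mul_add_div (M_pos _), Nat.mul_add_mod]

lemma sum_mul_range (a b : ℕ) (f : ℕ → ℂ) :
    ∑ i ∈ range (a * b), f i = ∑ d ∈ range b, ∑ i ∈ range a, f (a * d + i) := by
  induction b with
  | zero => simp
  | succ b ih => rw [mul_add, mul_one, sum_range_add, ih, sum_range_succ]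

lemma P_succ (t : ℂ) (L : ℕ) (x : G m) : ∑ i ∈ range (M m (L + 1)), t ^ i * psi m i x =
    (∑ i ∈ range (M m L), t ^ i * psi m i x) * ∑ d ∈ range (m L), (t ^ M m L * r m L x) ^ d := by
  rw [M_succ, sum_mul_range, mul_sum]
  refine sum_congr rfl fun d hd => ?_
  rw [sum_mul]
  refine sum_congr rfl fun i hi => ?_
  rw [psi_split (mem_range.1 hi) (mem_range.1 hd)]; ring

lemma P_eq (t : ℂ) (L : ℕ) (x : G m) : ∑ i ∈ range (M m L), t ^ i * psi m i x =
    ∏ l ∈ range L, ∑ d ∈ range (m l), (t ^ M m l * r m l x) ^ d := by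
  induction L with
  | zero => simp [M, psi]
  | succ L ih => rw [P_succ, ih, prod_range_succ]

lemma r_norm (k : ℕ) (x : G m) : ‖r m k x‖ = 1 := by
  rw [r_eq, ZMod.stdAddChar_apply]; simp

lemma r_sum (k : ℕ) (x : G m) : ∑ d ∈ range (m k), r m k x ^ d = if x k = 0 then (m k : ℂ) else 0 := by
  split_ifs with h
  · simp [r, h]
  · have : r m k x ≠ 1 := fun e => h (ZMod.injective_stdAddChar (by rw [← r_eq, e]; simp))
    rw [geom_sum_eq this, r_eq, ← AddChar.map_nsmul_eq_pow]; simp

lemma psi_norm (h2 : ∀ k, 2 ≤ m k) (i : ℕ) (x : G m) : ‖psi m i x‖ = 1 := by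
  rw [psi_eq (lt_M h2 i)]; simp [r_norm]

lemma psi_sub (h2 : ∀ k, 2 ≤ m k) (i : ℕ) (x y : G m) :
    starRingEnd ℂ (psi m i (x - y)) * psi m i x = psi m i y := by
  have : psi m i x = psi m i (x - y) * psi m i y := by
    simp only [psi_eq (lt_M h2 i), ← prod_mul_distrib, ← mul_pow, r_eq, ← AddChar.map_add_eq_mul]
    simp
  rw [this, ← mul_assoc, Complex.conj_mul', psi_norm h2]; simp

def dep {α : Type} (L : ℕ) (g : G m → α) : Prop := ∀ x y : G m, (∀ l < L, x l = y l) → g x = g y

omit [∀ k, NeZero (m k)] in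
lemma dep.mono {α : Type} {L L' : ℕ} {g : G m → α} (h : dep L g) (hL : L ≤ L') : dep L' g :=
  fun x y e => h x y fun l hl => e l (by omega)

lemma psi_dep {i L : ℕ} (h : i < M m L) : dep L (psi m i) := fun x y e => by
  rw [psi_eq h, psi_eq h]
  exact prod_congr rfl fun k hk => by rw [r, r, e k (mem_range.1 hk)]

abbrev Y (m : ℕ → ℕ) (L : ℕ) := ∀ l : Fin L, ZMod (m l)

def ex {L : ℕ} (y : Y m L) : G m := fun l => if h : l < L then y ⟨l, h⟩ else 0

omit [∀ k, NeZero (m k)] in
@[simp] lemma ex_apply {L : ℕ} (y : Y m L) (l : Fin L) : ex y l = y l := by simp [ex]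

instance : IsProbabilityMeasure (mu m) := by unfold mu; infer_instance

lemma sat {n : ℕ} {s : Set (G m)} (h : MeasurableSet[F m n] s) {x y : G m} (hx : ∀ l < n, x l = y l) :
    x ∈ s ↔ y ∈ s := by
  induction h with
  | basic u h =>
    obtain ⟨z, rfl⟩ := h
    exact forall₂_congr fun j hj => by rw [hx j hj]
  | empty => rfl
  | compl t _ h => exact not_congr h
  | iUnion f _ h => simp [h]

lemma dep_of {n : ℕ} {g : G m → ℂ} (h : StronglyMeasurable[F m n] g) : dep n g := fun x y e =>
  (sat (h.measurable (measurableSet_singleton (g y))) e).2 rfl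

omit [∀ k, NeZero (m k)] in
lemma dep.eq {α : Type} {n : ℕ} {g : G m → α} (h : dep n g) :
    g = (fun v : Y m n => g (ex v)) ∘ fun (x : G m) (i : Fin n) => x i :=
  funext fun x => h _ _ fun j hj => by simp [ex, hj]

lemma dep.meas {α : Type} [TopologicalSpace α] {n : ℕ} {g : G m → α} (h : dep n g) :
    StronglyMeasurable[F m n] g := by
  have h1 : Measurable[F m n] fun (x : G m) (i : Fin n) => x i := by
    letI : MeasurableSpace (G m) := F m n
    refine measurable_to_countable fun x => MeasurableSpace.measurableSet_generateFrom ⟨x, ?_⟩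
    ext y
    simp [I, funext_iff, Fin.forall_iff]
  rw [h.eq]
  exact StronglyMeasurable.of_discrete.comp_measurable h1

lemma dep.int {α : Type} [NormedAddCommGroup α] {n : ℕ} {g : G m → α} (h : dep n g) :
    Integrable g (mu m) := by
  obtain ⟨C, hC⟩ := (Set.finite_range fun v : Y m n => ‖g (ex v)‖).bddAbove
  refine .of_bound ((h.meas.mono ((F m).le n)).aestronglyMeasurable) C (.of_forall fun x => ?_)
  rw [h.eq]; exact hC ⟨_, rfl⟩

lemma shift {α : Type} [NormedAddCommGroup α] [NormedSpace ℝ α] (g : G m → α) (y : G m) :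
    ∫ x, g (x - y) ∂mu m = ∫ x, g x ∂mu m := by
  refine MeasurePreserving.integral_comp' (f := MeasurableEquiv.subRight y) ⟨by fun_prop, ?_⟩ g
  refine (Measure.infinitePi_map_pi (f := fun i (z : ZMod (m i)) => z - y i) _
    fun _ => by fun_prop).trans ?_
  unfold mu
  congr with i : 1
  refine Measure.ext_of_singleton fun a => ?_
  rw [Measure.map_apply (by fun_prop) (measurableSet_singleton _),
    show (fun z => z - y i) ⁻¹' {a} = {a + y i} by ext; simp [sub_eq_iff_eq_add]]
  simp [uniformOn_univ]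

lemma card_Y (L : ℕ) : Fintype.card (Y m L) = M m L := by simp [M, prod_range]

lemma avg {L : ℕ} {g : G m → ℂ} (h : dep L g) (x : G m) :
    ∫ z, g z ∂mu m = (M m L : ℂ)⁻¹ * ∑ y : Y m L, g (x - ex y) := by
  have c : ∀ x : G m, ∑ y : Y m L, g (x - ex y) = ∑ y : Y m L, g (ex y) := fun x =>
    Fintype.sum_equiv (Equiv.subLeft fun i : Fin L => x i) _ _ fun y => h _ _ fun l hl => by
      simp [ex, hl]
  have : ∫ z, ∑ y : Y m L, g (z - ex y) ∂mu m = M m L * ∫ z, g z ∂mu m := by
    rw [integral_finsetSum _ fun y _ => dep.int (n := L) fun a b e => h _ _ fun l hl => by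
      simp [e l hl]]
    simp [shift, card_Y, -Fintype.card_pi]
  simp only [c, integral_const, probReal_univ, one_smul] at this
  rw [c, this, inv_mul_cancel_left₀ (by exact_mod_cast (M_pos L).ne')]

variable {f : ℕ → G m → ℂ}

lemma coef_eq (hf : Martingale f (F m) (mu m)) {i L : ℕ} (h : i < M m L) :
    coef m f i = ∫ x, f L x * starRingEnd ℂ (psi m i x) ∂mu m := by
  refine Tendsto.limUnder_eq (tendsto_const_nhds.congr' ?_)
  filter_upwards [eventually_ge_atTop L] with k hk
  have d : dep L fun x => starRingEnd ℂ (psi m i x) := fun x y e => by simp only [psi_dep h x y e]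
  have := condExp_bilin_of_stronglyMeasurable_right (ContinuousLinearMap.mul ℝ ℂ) d.meas
    (dep.int (n := k) fun x y e => by
      simp only [dep_of (hf.stronglyMeasurable k) x y e, (psi_dep h).mono hk x y e]) (hf.integrable k)
  refine Eq.trans (integral_congr_ae ?_) (integral_condExp ((F m).le L))
  filter_upwards [this, hf.condExp_ae_eq hk] with x a b
  rw [← b]; exact a.symm

lemma cf (h2 : ∀ k, 2 ≤ m k) (hf : Martingale f (F m) (mu m)) {i L : ℕ} (h : i < M m L) (x : G m) :
    coef m f i * psi m i x = (M m L : ℂ)⁻¹ * ∑ y : Y m L, f L (x - ex y) * psi m i (ex y) := by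
  rw [coef_eq hf h, avg (L := L) (fun x y e => by
    simp only [dep_of (hf.stronglyMeasurable L) x y e, psi_dep h x y e]) x, mul_assoc, sum_mul]
  simp only [mul_assoc, psi_sub h2]

lemma S_M (h2 : ∀ k, 2 ≤ m k) (hf : Martingale f (F m) (mu m)) (L : ℕ) (x : G m) :
    S m f (M m L) x = f L x := by
  rw [S, sum_congr rfl fun i hi => cf h2 hf (mem_range.1 hi) x, ← mul_sum, sum_comm,
    sum_eq_single 0]
  · have := P_eq (m := m) 1 L 0
    simp only [one_pow, one_mul, r_sum, Pi.zero_apply, if_true] at this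
    rw [show ex (0 : Y m L) = 0 by ext; simp [ex], ← mul_sum, this, sub_zero, ← Nat.cast_prod,
      mul_comm (f L x), ← M, inv_mul_cancel_left₀ (by exact_mod_cast (M_pos L).ne')]
  · intro y _ hy
    obtain ⟨l, hl⟩ := Function.ne_iff.1 hy
    have := P_eq (m := m) 1 L (ex y)
    simp only [one_pow, one_mul, r_sum] at this
    rw [← mul_sum, this, prod_eq_zero (mem_range.2 l.2) (by simpa using fun h => absurd h hl), mul_zero]
  · simp

end Pool.Agent.H.MP_c47ae4_an
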