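import Pool.Agent.H.MP_c47ae4_an.A

set_option autoImplicit false
open MeasureTheory ProbabilityTheory Finset Filter
open scoped ENNReal

namespace Pool.Agent.H.MP_c47ae4_an

variable {m : ℕ → ℕ} [∀ k, NeZero (m k)]

noncomputable def u (k : ℕ) (z : G m) : ℂ :=
  ∑ q ∈ Ioc (M m k) (M m (k + 1)), (∑ i ∈ Ico (M m k) q, psi m i z) / q

lemma geo {x : ℝ} (x0 : 0 ≤ x) (x1 : x < 1) (k : ℕ) : ∑ l ∈ range k, x ^ (k - l) ≤ x / (1 - x) := by
  induction k with
  | zero => simp; exact div_nonneg x0 (by linarith)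
  | succ k ih =>
    rw [sum_range_succ, sum_congr rfl fun l hl => show x ^ (k + 1 - l) = x * x ^ (k - l) by
      rw [Nat.sub_add_comm (mem_range.1 hl).le, pow_succ'], ← mul_sum]
    have : 0 < 1 - x := by linarith
    calc _ ≤ x * (x / (1 - x)) + x ^ (k + 1 - k) := by gcongr
      _ = _ := by simp; field_simp; ring

lemma abel (a : ℕ → ℂ) (t : ℂ) {A b : ℕ} (h : A ≤ b) :
    (1 - t) * ∑ q ∈ Ioc A b, (∑ i ∈ Ico A q, a i) * t ^ (q - 1) =
      ∑ i ∈ Ico A b, t ^ i * a i - t ^ b * ∑ i ∈ Ico A b, a i := by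
  induction b, h using Nat.le_induction with
  | base => simp
  | succ b h ih =>
    rw [sum_Ioc_succ_top h, mul_add, ih, sum_Ico_succ_top h, sum_Ico_succ_top h]
    simp; ring

lemma fac {B : ℕ} (hB : ∀ k, m k ≤ B) {t : ℝ} (t0 : 0 ≤ t) (t1 : t ≤ 1) (l : ℕ) (z : G m) :
    ‖∑ d ∈ range (m l), ((t : ℂ) ^ M m l * r m l z) ^ d‖ ≤
      m l * if z l = 0 then 1 else B * (M m l * (1 - t)) := by
  split_ifs with h
  · refine (norm_sum_le_of_le _ (n := fun _ => 1) fun d _ => ?_).trans (by simp)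
    simp only [norm_pow, norm_mul, r_norm, mul_one, Complex.norm_real, Real.norm_of_nonneg t0]
    exact pow_le_one₀ (by positivity) (pow_le_one₀ t0 t1)
  · have := r_sum l z
    rw [if_neg h] at this
    rw [← sub_zero (∑ d ∈ range (m l), _), ← this, ← sum_sub_distrib]
    refine (norm_sum_le_of_le _ (n := fun _ => B * (M m l * (1 - t))) fun d hd => ?_).trans (by simp)
    rw [mul_pow, ← sub_one_mul, ← pow_mul, norm_mul, norm_pow, r_norm, one_pow, mul_one]
    norm_cast
    have a := one_add_mul_le_pow (a := t - 1) (by linarith) (M m l * d)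
    have b : (d : ℝ) ≤ B := by exact_mod_cast (mem_range.1 hd).le.trans (hB l)
    have c : 0 ≤ M m l * (1 - t) := mul_nonneg (by positivity) (by linarith)
    rw [Real.norm_eq_abs, abs_sub_comm, abs_of_nonneg (sub_nonneg.2 (pow_le_one₀ t0 t1))]
    push_cast at a
    rw [add_sub_cancel] at a
    nlinarith

noncomputable def W (K σ : ℝ) (k L : ℕ) (z : G m) : ℝ :=
  ∏ l ∈ range L, if z l = 0 then 1 else K * σ ^ (k - l)

lemma Pbd (h2 : ∀ k, 2 ≤ m k) {B : ℕ} (hB : ∀ k, m k ≤ B) {t : ℝ} (t0 : 0 ≤ t) (t1 : t ≤ 1) {k l0 : ℕ}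
    (hl : l0 < k) {z : G m} (hz : z l0 ≠ 0) : ‖∑ i ∈ range (M m k), (t : ℂ) ^ i * psi m i z‖ ≤
      M m k * W (4 * B) (3 / 4) k k z * (M m k * (1 - t)) * Real.exp (M m k * (1 - t) / 2) := by
  obtain ⟨s, hs⟩ : ∃ s, s = M m k * (1 - t) := ⟨_, rfl⟩
  have s0 : 0 ≤ s := hs ▸ mul_nonneg (by positivity) (by linarith)
  rw [P_eq, norm_prod, ← hs]
  calc _ ≤ ∏ l ∈ range k, (m l * (if z l = 0 then 1 else 4 * B * (3 / 4 : ℝ) ^ (k - l)) *
        (if l = l0 then s else 1) * Real.exp (s / 4 * (2 / 3) ^ (k - l))) := by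
        refine prod_le_prod (fun _ _ => norm_nonneg _) fun l hl => (fac hB t0 t1 l z).trans ?_
        have e := Real.add_one_le_exp (s / 4 * (2 / 3) ^ (k - l))
        have e0 : 0 ≤ s / 4 * (2 / 3) ^ (k - l) := by positivity
        have a : (2 : ℝ) ^ (k - l) * M m l ≤ M m k := by
          have := M_two h2 l (k - l)
          rw [Nat.add_sub_cancel' (mem_range.1 hl).le] at this
          exact_mod_cast this
        have b : M m l * (1 - t) ≤ 4 * (3 / 4) ^ (k - l) * (s / 4 * (2 / 3) ^ (k - l)) := by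
          rw [show 4 * (3 / 4) ^ (k - l) * (s / 4 * (2 / 3) ^ (k - l)) = s * ((3 / 4) * (2 / 3)) ^ (k - l) by
            rw [mul_pow]; ring, show (3 / 4 * (2 / 3) : ℝ) = 2⁻¹ by norm_num, inv_pow, ← div_eq_mul_inv,
            le_div_iff₀ (by positivity), hs]
          nlinarith
        rw [mul_assoc, mul_assoc]
        gcongr
        by_cases h : z l = 0
        · rw [if_pos h, if_pos h, if_neg (by rintro rfl; exact hz h)]; linarith
        rw [if_neg h, if_neg h, mul_comm 4, mul_assoc, mul_assoc]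
        refine mul_le_mul_of_nonneg_left ?_ (by positivity)
        rw [← mul_assoc]
        refine b.trans (mul_le_mul_of_nonneg_left ?_ (by positivity))
        split_ifs
        · have : (2 / 3 : ℝ) ^ (k - l) ≤ 1 := pow_le_one₀ (by norm_num) (by norm_num)
          nlinarith
        · linarith
    _ ≤ _ := by
        rw [prod_mul_distrib, prod_mul_distrib, prod_mul_distrib, prod_ite_eq', if_pos (mem_range.2 hl),
          ← Real.exp_sum, ← mul_sum, ← Nat.cast_prod, ← M, ← W]
        have : 0 ≤ W (4 * B) (3 / 4) k k z := prod_nonneg fun _ _ => by positivity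
        have := geo (x := 2 / 3) (by norm_num) (by norm_num) k
        gcongr
        nlinarith

lemma ker (h2 : ∀ k, 2 ≤ m k) {B : ℕ} (hB : ∀ k, m k ≤ B) (k : ℕ) (z : G m) :
    ‖u k z‖ ≤ M m (k + 1) * (2 * B * W (4 * B) (3 / 4) k k z) := by
  have B2 : (2 : ℝ) ≤ B := by exact_mod_cast (h2 0).trans (hB 0)
  have Mk : (0 : ℝ) < M m k := by exact_mod_cast M_pos k
  have mm : M m k ≤ M m (k + 1) := M_mono k.le_succ
  by_cases h : ∀ l < k, z l = 0
  · rw [W, prod_eq_one fun l hl => if_pos (h l (mem_range.1 hl))]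
    refine (norm_sum_le_of_le _ (n := fun _ => 1) fun q hq => ?_).trans ?_
    · rw [norm_div, Complex.norm_natCast]
      refine div_le_one_of_le₀ ((norm_sum_le _ _).trans ?_) (by positivity)
      simp [psi_norm h2]
    · have : ((M m (k + 1) - M m k : ℕ) : ℝ) ≤ M m (k + 1) := by exact_mod_cast Nat.sub_le _ _
      simp only [sum_const, Nat.card_Ioc, nsmul_eq_mul]
      nlinarith
  push Not at h
  obtain ⟨l0, hl, hz⟩ := h
  have w0 : 0 ≤ W (4 * B) (3 / 4) k k z := prod_nonneg fun _ _ => by positivity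
  have e : u k z = ∫ t in (0 : ℝ)..1, ∑ q ∈ Ioc (M m k) (M m (k + 1)),
      (∑ i ∈ Ico (M m k) q, psi m i z) * (t : ℂ) ^ (q - 1) := by
    rw [intervalIntegral.integral_finsetSum fun q _ => Continuous.intervalIntegrable (by fun_prop) _ _]
    refine sum_congr rfl fun q hq => ?_
    obtain ⟨q, rfl⟩ : ∃ q', q = q' + 1 := ⟨q - 1, by have := (mem_Ioc.1 hq).1; omega⟩
    rw [intervalIntegral.integral_const_mul]
    norm_cast
    rw [intervalIntegral.integral_ofReal]
    simp [div_eq_mul_inv]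
  have z1 : ∑ i ∈ range (M m k), psi m i z = 0 := by
    have := Pbd h2 hB zero_le_one le_rfl hl hz
    simpa using this
  have z2 : ∑ i ∈ Ico (M m k) (M m (k + 1)), psi m i z = 0 := by
    have := P_succ 1 k z
    simp only [one_pow, one_mul, z1, zero_mul] at this
    rw [sum_Ico_eq_sub _ mm, z1, this, sub_zero]
  rw [e]
  refine (intervalIntegral.norm_integral_le_of_norm_le zero_le_one (g := fun t =>
    B * M m k ^ 2 * W (4 * B) (3 / 4) k k z * Real.exp (M m k / 2 * t - M m k / 2)) ?_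
    (Continuous.intervalIntegrable (by fun_prop) _ _)).trans ?_
  · filter_upwards [compl_mem_ae_iff.2 (measure_singleton 1)] with t t1 ht
    have t2 : 0 < 1 - t := sub_pos.2 (ht.2.lt_of_ne t1)
    have a := congrArg norm (abel (fun i => psi m i z) t mm)
    rw [z2, mul_zero, sub_zero, sum_Ico_eq_sub _ mm, P_succ, ← mul_sub_one, norm_mul, norm_mul,
      show ‖1 - (t : ℂ)‖ = 1 - t by norm_cast; exact abs_of_pos t2] at a
    have b : ‖∑ d ∈ range (m k), ((t : ℂ) ^ M m k * r m k z) ^ d - 1‖ ≤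
        B * Real.exp (-(M m k * (1 - t))) := by
      obtain ⟨c, hc⟩ : ∃ c, m k = c + 1 := ⟨m k - 1, by have := h2 k; omega⟩
      rw [hc, sum_range_succ', pow_zero, add_sub_cancel_right]
      refine (norm_sum_le_of_le _ (n := fun _ => Real.exp (-(M m k * (1 - t)))) fun d _ => ?_).trans ?_
      · simp only [norm_pow, norm_mul, r_norm, mul_one, Complex.norm_real, Real.norm_of_nonneg ht.1.le]
        refine (pow_le_of_le_one (by have := ht.1; positivity) (pow_le_one₀ ht.1.le ht.2)
          d.succ_ne_zero).trans ?_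
        rw [← mul_neg, Real.exp_nat_mul]
        gcongr
        exacts [ht.1.le, by linarith [Real.add_one_le_exp (-(1 - t))]]
      · have : (c : ℝ) ≤ B := by exact_mod_cast (by have := hB k; omega : c ≤ B)
        simp only [sum_const, card_range, nsmul_eq_mul]
        gcongr
    refine le_of_mul_le_mul_left (a.trans_le ((mul_le_mul (Pbd h2 hB ht.1.le ht.2 hl hz) b
      (norm_nonneg _) (by positivity)).trans_eq ?_)) t2
    rw [show M m k / 2 * t - M m k / 2 = M m k * (1 - t) / 2 + -(M m k * (1 - t)) by ring, Real.exp_add]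
    ring
  · rw [intervalIntegral.integral_const_mul, intervalIntegral.integral_comp_mul_sub Real.exp
      (by positivity), integral_exp]
    have : (M m k : ℝ) ≤ M m (k + 1) := by exact_mod_cast mm
    calc _ ≤ B * M m k ^ 2 * W (4 * B) (3 / 4) k k z * ((M m k / 2 : ℝ)⁻¹ • (1 : ℝ)) := by
          gcongr; simp [Real.exp_nonneg]
      _ = M m k * (2 * B * W (4 * B) (3 / 4) k k z) := by rw [smul_eq_mul]; field_simp
      _ ≤ _ := by gcongr

end Pool.Agent.H.MP_c47ae4_an
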