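import Pool.Agent.H.MP_c47ae4_an.B

set_option autoImplicit false
open MeasureTheory ProbabilityTheory Finset Filter
open scoped ENNReal

namespace Pool.Agent.H.MP_c47ae4_an

variable {m : ℕ → ℕ} [∀ k, NeZero (m k)]

lemma geo' {τ : ℝ} (t0 : 0 ≤ τ) (t1 : τ < 1) (n : ℕ) : ∑ i ∈ range n, τ ^ i ≤ (1 - τ)⁻¹ :=
  tsum_geometric_of_lt_one t0 t1 ▸ (summable_geometric_of_lt_one t0 t1).sum_le_tsum _
    fun _ _ => by positivity

lemma Wsum {B : ℕ} (hB : ∀ k, m k ≤ B) {K τ : ℝ} (K0 : 0 ≤ K) (t0 : 0 ≤ τ) (t1 : τ < 1) (k : ℕ) :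
    ∑ y : Y m (k + 1), W K τ k (k + 1) (ex y) ≤ Real.exp (B * K * (1 - τ)⁻¹) := by
  simp only [W, prod_range, ex_apply]
  rw [← Fintype.piFinset_univ, ← prod_univ_sum (fun _ => univ)
    fun (l : Fin (k + 1)) (d : ZMod (m l)) => if d = 0 then 1 else K * τ ^ (k - l)]
  calc _ ≤ ∏ l : Fin (k + 1), Real.exp (B * K * τ ^ (k - l)) := by
        refine prod_le_prod (fun _ _ => sum_nonneg fun _ _ => by positivity) fun l _ => ?_
        refine le_trans ?_ (Real.add_one_le_exp _)
        refine (sum_le_sum (g := fun d => (if d = 0 then 1 else 0) + K * τ ^ (k - l)) fun d _ => by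
          split_ifs <;> simp; positivity).trans ?_
        have : (m l : ℝ) ≤ B := by exact_mod_cast hB l
        simp only [sum_add_distrib, sum_ite_eq', mem_univ, if_true, sum_const, card_univ, ZMod.card,
          nsmul_eq_mul, mul_assoc]
        rw [add_comm]
        gcongr
    _ ≤ _ := by
        rw [← Real.exp_sum, ← mul_sum, ← sum_range fun l => τ ^ (k - l)]
        gcongr
        exact (sum_range_reflect (fun l => τ ^ l) (k + 1)).le.trans (geo' t0 t1 _)

omit [∀ k, NeZero (m k)] in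
lemma Wle {K τ : ℝ} (K0 : 0 ≤ K) (t0 : 0 ≤ τ) (t1 : τ ≤ 1) (k L : ℕ) (z : G m) :
    W K (τ ^ 2) k L z ≤ W K τ k L z ∧ ∀ j, ∀ l ≤ j, j < L → z l ≠ 0 →
      W K (τ ^ 2) k L z ≤ τ ^ (k - j) * W K τ k L z := by
  have e : W K (τ ^ 2) k L z = (∏ l ∈ range L, if z l = 0 then 1 else τ ^ (k - l)) * W K τ k L z := by
    rw [W, W, ← prod_mul_distrib]
    exact prod_congr rfl fun l _ => by split_ifs <;> ring
  have w0 : 0 ≤ W K τ k L z := prod_nonneg fun _ _ => by positivity
  have o : ∀ l, (if z l = 0 then 1 else τ ^ (k - l)) ≤ 1 := fun l => by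
    split_ifs; exacts [le_rfl, pow_le_one₀ t0 t1]
  rw [e]
  refine ⟨mul_le_of_le_one_left w0 (prod_le_one (fun _ _ => by positivity) fun l _ => o l),
    fun j l hl hj hz => mul_le_mul_of_nonneg_right ?_ w0⟩
  rw [← mul_prod_erase _ _ (mem_range.2 (by omega : l < L)), if_neg hz]
  exact (mul_le_of_le_one_right (by positivity) (prod_le_one (fun _ _ => by positivity)
    fun l _ => o l)).trans (pow_le_pow_of_le_one t0 t1 (by omega))

lemma maxi {B : ℕ} (hB : ∀ k, m k ≤ B) {K τ : ℝ} (K0 : 0 ≤ K) (t0 : 0 ≤ τ) (t1 : τ < 1) :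
    ∃ C : ℝ, 0 ≤ C ∧ ∀ (g : ℕ → G m → ℝ) (n : ℕ), (∀ j, dep j (g j)) → (∀ j x, 0 ≤ g j x) →
      (∀ x, Monotone fun j => g j x) → ∃ T : G m → ℝ, dep n T ∧ (∀ x, 0 ≤ T x) ∧
      ∫ x, T x ∂mu m ≤ C * ∫ x, g n x ∂mu m ∧ ∀ k < n, ∀ x,
        ∑ y : Y m (k + 1), W K (τ ^ 2) k (k + 1) (ex y) * g (k + 1) (x - ex y) ≤ T x := by
  classical
  obtain ⟨P, hP⟩ : ∃ P, P = Real.exp (B * K * (1 - τ)⁻¹) := ⟨_, rfl⟩
  have P0 : 0 ≤ P := hP ▸ Real.exp_nonneg _
  have t2 : 0 ≤ (1 - τ)⁻¹ := inv_nonneg.2 (by linarith)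
  refine ⟨P + P * (1 - τ)⁻¹, by positivity, fun g n hd g0 gm => ?_⟩
  let D := fun j x => g (j + 1) x - g j x
  have D0 : ∀ j x, 0 ≤ D j x := fun j x => sub_nonneg.2 (gm x j.le_succ)
  have Dd : ∀ j, dep (j + 1) (D j) := fun j x y e => by
    simp only [D, hd _ x y e, (hd j).mono j.le_succ x y e]
  have Ds : ∀ j (z : G m), dep (j + 1) fun x => D j (x - z) := fun j z x y e =>
    Dd j _ _ fun l hl => by simp [e l hl]
  have w0 : ∀ (s : ℝ), 0 ≤ s → ∀ k (z : G m), 0 ≤ W K s k (k + 1) z := fun s _ k z =>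
    prod_nonneg fun _ _ => by positivity
  let U := fun k x => ∑ j ∈ range (k + 1), τ ^ (k - j) *
    ∑ y : Y m (k + 1), W K τ k (k + 1) (ex y) * D j (x - ex y)
  have U0 : ∀ k x, 0 ≤ U k x := fun k x => sum_nonneg fun j _ => mul_nonneg (by positivity)
    (sum_nonneg fun y _ => mul_nonneg (w0 _ t0 _ _) (D0 _ _))
  have Ud : ∀ k, dep (k + 1) (U k) := fun k x y e => sum_congr rfl fun j hj => by
    rw [sum_congr rfl fun z _ => congrArg _ ((Ds j (ex z)).mono (mem_range.1 hj) x y e)]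
  refine ⟨fun x => P * g n x + ∑ k ∈ range n, U k x, fun x y e => by
    simp only [hd n x y e, sum_congr rfl fun k hk => (Ud k).mono (mem_range.1 hk) x y e],
    fun x => add_nonneg (mul_nonneg P0 (g0 _ _)) (sum_nonneg fun k _ => U0 k x), ?_, fun k hk x => ?_⟩
  · rw [integral_add ((hd n).int.const_mul _) (integrable_finsetSum _ fun k _ => (Ud k).int),
      integral_const_mul, integral_finsetSum _ fun k _ => (Ud k).int, add_mul, add_le_add_iff_left]
    have d0 : ∀ j, 0 ≤ ∫ x, D j x ∂mu m := fun j => integral_nonneg (D0 j)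
    calc _ ≤ ∑ k ∈ range n, ∑ j ∈ range (k + 1), τ ^ (k - j) * (P * ∫ x, D j x ∂mu m) := by
          refine sum_le_sum fun k _ => ?_
          rw [integral_finsetSum _ fun j _ => (integrable_finsetSum _ fun y _ =>
            (Ds j _).int.const_mul _).const_mul _]
          refine sum_le_sum fun j _ => ?_
          rw [integral_const_mul, integral_finsetSum _ fun y _ => (Ds j _).int.const_mul _]
          simp only [integral_const_mul, shift, ← sum_mul]
          have := hP ▸ Wsum hB K0 t0 t1 k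
          have := d0 j
          gcongr
      _ ≤ ∑ j ∈ range n, (1 - τ)⁻¹ * (P * ∫ x, D j x ∂mu m) := by
          simp only [range_eq_Ico]
          rw [← sum_Ico_Ico_comm 0 n fun j k => τ ^ (k - j) * (P * ∫ x, D j x ∂mu m)]
          refine sum_le_sum fun j _ => ?_
          have := d0 j
          rw [← sum_mul, sum_Ico_eq_sum_range]
          gcongr
          simpa using geo' t0 t1 _
      _ ≤ _ := by
          rw [← mul_sum, ← mul_sum, ← integral_finsetSum _ fun j _ => (Dd j).int, mul_left_comm,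
            mul_assoc]
          gcongr
          · exact integrable_finsetSum _ fun j _ => (Dd j).int
          · exact (hd n).int
          · exact fun x => (sum_range_sub (fun j => g j x) n).trans_le (sub_le_self _ (g0 _ _))
  · have a : ∀ (z : G m) i, g i (x - z) ≤ g i x +
        ∑ j ∈ range i, if ∃ l ≤ j, z l ≠ 0 then D j (x - z) else 0 := fun z i => by
      induction i with
      | zero => simpa using (hd 0 _ _ (by simp)).le
      | succ i ih =>
        rw [sum_range_succ]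
        split_ifs with h
        · have := D0 i x
          simp only [D] at *; linarith
        · push Not at h
          have := Dd i (x - z) x fun l hl => by simp [h l (by omega)]
          simp only [D] at *; linarith
    calc _ ≤ ∑ y : Y m (k + 1), (W K τ k (k + 1) (ex y) * g n x +
          ∑ j ∈ range (k + 1), τ ^ (k - j) * (W K τ k (k + 1) (ex y) * D j (x - ex y))) := by
          refine sum_le_sum fun y _ => (mul_le_mul_of_nonneg_left (a _ _)
            (w0 _ (by positivity) _ _)).trans ?_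
          have b := Wle K0 t0 t1.le k (k + 1) (ex y)
          rw [mul_add, mul_sum]
          refine add_le_add (mul_le_mul b.1 (gm x hk) (g0 _ _) (w0 _ t0 _ _)) (sum_le_sum fun j hj => ?_)
          split_ifs with h
          · obtain ⟨l, hl, hz⟩ := h
            rw [← mul_assoc]
            exact mul_le_mul_of_nonneg_right (b.2 j l hl (mem_range.1 hj) hz) (D0 _ _)
          · rw [mul_zero]; exact mul_nonneg (by positivity) (mul_nonneg (w0 _ t0 _ _) (D0 _ _))
      _ ≤ _ := by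
          rw [sum_add_distrib, ← sum_mul, sum_comm]
          refine add_le_add (mul_le_mul_of_nonneg_right (hP ▸ Wsum hB K0 t0 t1 k) (g0 _ _)) ?_
          refine le_trans (le_of_eq ?_) (single_le_sum (fun k _ => U0 k x) (mem_range.2 hk))
          simp only [U, mul_sum]

variable {f : ℕ → G m → ℂ}

lemma Vbd (h2 : ∀ k, 2 ≤ m k) {B : ℕ} (hB : ∀ k, m k ≤ B) (hf : Martingale f (F m) (mu m)) (k : ℕ)
    (x : G m) : ‖∑ q ∈ Ioc (M m k) (M m (k + 1)), (S m f q x - f k x) / q‖ ≤
      ∑ y : Y m (k + 1), 2 * B * W (4 * B) (3 / 4) k (k + 1) (ex y) * ‖f (k + 1) (x - ex y)‖ := by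
  have B2 : (2 : ℝ) ≤ B := by exact_mod_cast (h2 0).trans (hB 0)
  have Mk : (0 : ℝ) < M m (k + 1) := by exact_mod_cast M_pos _
  have e : ∑ q ∈ Ioc (M m k) (M m (k + 1)), (S m f q x - f k x) / q =
      ∑ y : Y m (k + 1), (M m (k + 1) : ℂ)⁻¹ * u k (ex y) * f (k + 1) (x - ex y) := by
    simp only [u, mul_sum, sum_mul]
    rw [sum_comm]
    refine sum_congr rfl fun q hq => ?_
    rw [← S_M h2 hf k, S, S, ← sum_Ico_eq_sub _ (mem_Ioc.1 hq).1.le, sum_congr rfl fun i hi =>
      cf h2 hf ((mem_Ico.1 hi).2.trans_le (mem_Ioc.1 hq).2) x, ← mul_sum, sum_comm, mul_sum, sum_div]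
    exact sum_congr rfl fun y _ => by rw [← mul_sum]; ring
  rw [e]
  refine norm_sum_le_of_le _ fun y _ => ?_
  rw [norm_mul, norm_mul, norm_inv, Complex.norm_natCast]
  refine mul_le_mul_of_nonneg_right ?_ (norm_nonneg _)
  rw [inv_mul_le_iff₀ Mk]
  refine (ker h2 hB k _).trans (mul_le_mul_of_nonneg_left (mul_le_mul_of_nonneg_left ?_
    (by positivity)) Mk.le)
  rw [W, W, prod_range_succ]
  refine le_mul_of_one_le_right (prod_nonneg fun _ _ => by positivity) ?_
  split_ifs
  · rfl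
  · simp; linarith

lemma Rbd (h2 : ∀ k, 2 ≤ m k) (hf : Martingale f (F m) (mu m)) {n : ℕ} {x : G m} {a b : ℝ} (b0 : 0 ≤ b)
    (ha : ∀ k ≤ n, ‖f k x‖ ≤ a)
    (hb : ∀ k < n, ‖∑ q ∈ Ioc (M m k) (M m (k + 1)), (S m f q x - f k x) / q‖ ≤ b) :
    ‖R m f (M m n) x‖ ≤ a + 2 * b := by
  have k : ∀ j ≤ n, ‖∑ q ∈ Ioc 0 (M m j), S m f q x / q‖ ≤
      (a + 2 * b) * ∑ q ∈ Ioc 0 (M m j), (1 : ℝ) / q := fun j hj => by
    induction j with
    | zero =>
      have := S_M h2 hf 0 x
      have := ha 0 hj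
      simp only [M, range_zero, prod_empty] at *
      rw [show Ioc 0 1 = {1} from rfl]
      simp [*]; linarith
    | succ j ih =>
      have mm : M m j ≤ M m (j + 1) := M_mono j.le_succ
      rw [← sum_Ioc_consecutive _ (Nat.zero_le _) mm, ← sum_Ioc_consecutive _ (Nat.zero_le _) mm, mul_add]
      refine (norm_add_le _ _).trans (add_le_add (ih (by omega)) ?_)
      have e : ∑ q ∈ Ioc (M m j) (M m (j + 1)), S m f q x / q = f j x * (∑ q ∈ Ioc (M m j) (M m (j + 1)),
          (1 : ℝ) / q : ℝ) + ∑ q ∈ Ioc (M m j) (M m (j + 1)), (S m f q x - f j x) / q := by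
        push_cast
        rw [mul_sum, ← sum_add_distrib]
        exact sum_congr rfl fun q _ => by ring
      have l : 1 / 2 ≤ ∑ q ∈ Ioc (M m j) (M m (j + 1)), (1 : ℝ) / q := by
        have p : (0 : ℝ) < M m j := by exact_mod_cast M_pos _
        have p2 : (2 : ℝ) * M m j ≤ M m (j + 1) := by simpa using (Nat.cast_le (α := ℝ)).2 (M_two h2 j 1)
        refine le_trans ?_ (card_nsmul_le_sum _ _ (1 / M m (j + 1) : ℝ) fun q hq =>
          one_div_le_one_div_of_le (by exact_mod_cast (mem_Ioc.1 hq).1.bot_lt)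
            (by exact_mod_cast (mem_Ioc.1 hq).2))
        rw [Nat.card_Ioc, nsmul_eq_mul, Nat.cast_sub mm, mul_one_div, le_div_iff₀ (by linarith)]
        linarith
      rw [e]
      refine (norm_add_le _ _).trans ?_
      rw [norm_mul, Complex.norm_real, Real.norm_of_nonneg (by linarith)]
      nlinarith [ha j (by omega), hb j hj]
  have e : ∑ k ∈ Ioc 0 (M m n), (1 : ℂ) / k = (∑ q ∈ Ioc 0 (M m n), (1 : ℝ) / q : ℝ) := by simp
  have a0 := (norm_nonneg _).trans (ha 0 n.zero_le)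
  rw [R, show Icc 1 (M m n) = Ioc 0 (M m n) from rfl, norm_div, e, Complex.norm_real,
    Real.norm_of_nonneg (by positivity)]
  exact div_le_of_le_mul₀ (by positivity) (by positivity) (k n le_rfl)

end Pool.Agent.H.MP_c47ae4_an
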