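import Mathlib

set_option autoImplicit false
open MeasureTheory ProbabilityTheory Finset Filter
open scoped ENNReal

namespace Pool.Agent.H.MP_c47ae4_an

variable (m : ℕ → ℕ) [∀ k, NeZero (m k)]

/-- the Vilenkin group -/
abbrev G := ∀ k, ZMod (m k)

/-- the product of the uniform probability measures -/
noncomputable def mu : Measure (G m) := Measure.infinitePi fun _ => uniformOn Set.univ

/-- the generalised powers -/
def M (n : ℕ) : ℕ := ∏ k ∈ range n, m k

/-- intervals -/
def I (n : ℕ) (x : G m) : Set (G m) := {y | ∀ j < n, y j = x j}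

/-- the filtration generated by the intervals -/
def F : Filtration ℕ (inferInstance : MeasurableSpace (G m)) where
  seq n := .generateFrom (Set.range (I m n))
  mono' := monotone_nat_of_le_succ fun n => MeasurableSpace.generateFrom_le fun _ ⟨x, h⟩ => by
    have : I m n x = ⋃ d, I m (n + 1) (Function.update x n d) := by
      ext y
      simp only [I, Set.mem_iUnion, Set.mem_ofPred_eq]
      exact ⟨fun h => ⟨y n, by grind⟩, fun ⟨d, h⟩ => by grind⟩
    rw [← h, this]
    exact .iUnion fun d => MeasurableSpace.measurableSet_generateFrom ⟨_, rfl⟩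
  le' n := MeasurableSpace.generateFrom_le fun _ ⟨x, h⟩ => by
    rw [← h]
    unfold I
    measurability

/-- generalised Rademacher functions -/
noncomputable def r (k : ℕ) (x : G m) : ℂ := Complex.exp (2 * Real.pi * Complex.I * (x k).val / m k)

/-- the Vilenkin system -/
noncomputable def psi (n : ℕ) (x : G m) : ℂ := ∏ᶠ k, r m k x ^ (n / M m k % m k)

/-- Fourier coefficients of a martingale -/
noncomputable def coef (f : ℕ → G m → ℂ) (i : ℕ) : ℂ :=
  limUnder atTop fun k => ∫ x, f k x * starRingEnd ℂ (psi m i x) ∂mu m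

/-- sums of the first terms of the Fourier series -/
noncomputable def S (f : ℕ → G m → ℂ) (n : ℕ) (x : G m) : ℂ := ∑ k ∈ range n, coef m f k * psi m k x

/-- Riesz logarithmic means -/
noncomputable def R (f : ℕ → G m → ℂ) (n : ℕ) (x : G m) : ℂ :=
  (∑ k ∈ Icc 1 n, S m f k x / k) / ∑ k ∈ Icc 1 n, (1 : ℂ) / k

/-- the L_p quasi-norm -/
noncomputable def nL (p : ℝ) (g : G m → ℂ) : ℝ≥0∞ := (∫⁻ x, ‖g x‖ₑ ^ p ∂mu m) ^ (1 / p)

/-- the H_p quasi-norm -/
noncomputable def nH (p : ℝ) (f : ℕ → G m → ℂ) : ℝ≥0∞ :=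
  (∫⁻ x, (⨆ n, ‖f n x‖ₑ) ^ p ∂mu m) ^ (1 / p)

end Pool.Agent.H.MP_c47ae4_an
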